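import Pool.Agent.Helper10.W3.M_Trq
import Pool.Agent.Helper38.CV.M_Far
import Pool.Agent.Helper71.S7.M_DimK
import Pool.Agent.Helper36.S7.M_Split
import Pool.Agent.Helper45.TH7.M_PLAH7
import Pool.Agent.Helper60.TH7.M_EDGH7
import Pool.Agent.Helper66.TH7.M_BALH7
import Pool.Agent.Helper55.TH7.M_TYPH7
import Pool.Agent.Helper53.TH7.M_DIMEH7
import Pool.Agent.Helper7.TH7.M_DIMOH7
import Pool.Agent.Helper69.TH7.M_E1AH7
import Pool.Agent.Helper51.TH7.M_E1BH7
import Pool.Agent.Helper3.TH7.M_O1H7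
import Pool.Agent.Helper33.TH7.M_UBH7

/-!
# Project TH: the upper bound for the new symbols of level `2 * 7^n` with `W_2 = +1`, assembled
-/

set_option autoImplicit false

namespace Pool.Agent.Helper76.TH7

open Pool.Agent.Helper93.TLH

/-- Values on translated paths. -/
theorem edgH7 : HEdg7 := Pool.Agent.Helper60.TH7.hEdgH7 Pool.Agent.Helper45.TH7.hPlAH7

/-- The upper bound for the levels `2 * 7^n`. -/
theorem ubh7 : UBH 7 ddH7 := by
  have pla := Pool.Agent.Helper45.TH7.hPlAH7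
  have typ := Pool.Agent.Helper55.TH7.hTypH7
  have dimK := Pool.Agent.Helper71.S7.hDimK Pool.Agent.Helper10.W3.hTrq
  have split := Pool.Agent.Helper36.S7.hSplit
  have far := Pool.Agent.Helper38.CV.hFar
  exact Pool.Agent.Helper33.TH7.hUBH7 Pool.Agent.Helper66.TH7.hBalH7
    (Pool.Agent.Helper69.TH7.hE1AH7 edgH7 pla typ)
    (Pool.Agent.Helper51.TH7.hE1BH7 edgH7 pla far)
    (Pool.Agent.Helper3.TH7.hO1H7 edgH7 pla typ far)
    (Pool.Agent.Helper53.TH7.hDimEH7 typ dimK split)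
    (Pool.Agent.Helper7.TH7.hDimOH7 typ dimK split)

end Pool.Agent.Helper76.TH7
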