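import Pool.Agent.Helper93.TLH.StB
import Pool.Agent.Helper76.S7.StC

/-!
# Project TH (level `2 * 7^n`, `W_2 = +1`): upper bound for new symbols

The shape of `Helper76/TH/StC.lean` (project TH, `p = 5`, all modules closed: `Pool/Agent/Helper*/TH/M_*H.lean`) on the plane of W7 (`Helper76/S7/StC.lean`: `Pt`, `trp`, `ng`, `dR`, `anti7`, `inv1`, `inv7`, `Dv`, `Ty`, `Kl`, `Iv`; closed theorems DIMK `Pool.Agent.Helper71.S7.hDimK Pool.Agent.Helper10.W3.hTrq`, SPLIT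
`Pool.Agent.Helper36.S7.hSplit`), with the group of the matrices `(a 7^μ b; 7c d)` of type `HTy` (determinant one and `c` even, or determinant two and `a, c, d` even). RULE FOR REFLECTIONS. `val π = G(gu) - G(gv)` for the path `π` from `v` to `u`, `F_π(p)` the value at the coordinates `p` of `g`. `b = (0 1; 2 0)` (even exponents, `μ = 1`),
`b = (0 1; 14 0)` (odd exponents, `μ = 0`): if `g` has coordinates `p = (x, y)`, then `b⁻¹ g b` has coordinates `swH p = (y/2, 2x)`, `* g *` has `ng p`, `g M` has `trp μ a b c d p` for `M = (a 7^μ b; 7c d)` of type `HTy`. `G∘* ≈ G`, `G∘b ≈ -G`. So for `ρ = b M` (up to a scalar): the value of `G` at the path `g ρ π` is `-F_π(trp M (swH p))`; for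
`ρ = * M`: `F_π(trp M (ng p))`; for `ρ = b * M`: `-F_π(trp M (ng (swH p)))`. The relations of TYP and the dimensions `24`, `924` (odd, `m = 1, 2`), `126`, `6174` (even, `m = 1, 2`) were checked by machine. (The quotient for odd exponents is a right-angled pentagon with the cusp `∞`; for even exponents a Möbius band with four cusps, four right angles and one
inner point of order two.)
-/

set_option autoImplicit false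

namespace Pool.Agent.Helper76.TH7

open Pool.Agent.Helper14.CV (Homog EqC act StFar)
open Pool.Agent.Helper76.S7
open Pool.Agent.Helper93.TLH

/-- The matrix `(a, 7^μ b; 7 c, d)` is of type `HTy` and has plane coordinates `(x, y)`. -/
def PlH (μ : ℕ) {q q' : ℕ} (a b c d : ℤ) (x : ZMod q) (y : ZMod q') : Prop :=
  HTy a (7 ^ μ * b) (7 * c) d ∧ (b : ZMod q) = x * a ∧ (c : ZMod q') = y * d

/-- The (even) entry `Y` of the standard matrix `(1, 7^μ X; 7 Y, 1 + 7^(μ+1) X Y)`, `X = x.val`. -/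
noncomputable def rYH (μ : ℕ) {q q' : ℕ} (x : ZMod q) (y : ZMod q') : ℤ :=
  2 * ((y * (2 * (1 - 7 ^ (μ + 1) * ((x.val : ℕ) : ZMod q') * y))⁻¹).val : ℤ)

/-- The value of the symbol of `G` on the path from `g v` to `g u`, `g` the standard matrix with plane coordinates `(x, y)`. -/
noncomputable def edgeH {R : Type} [AddCommGroup R] (μ : ℕ) {q q' : ℕ} (u1 u2 v1 v2 : ℤ)
    (G : ℤ → ℤ → R) (x : ZMod q) (y : ZMod q') : R :=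
  G (u1 + 7 ^ μ * (x.val : ℤ) * u2) (7 * rYH μ x y * u1 + (1 + 7 ^ (μ + 1) * (x.val : ℤ) * rYH μ x y) * u2)
  - G (v1 + 7 ^ μ * (x.val : ℤ) * v2) (7 * rYH μ x y * v1 + (1 + 7 ^ (μ + 1) * (x.val : ℤ) * rYH μ x y) * v2)

/-- PLAH7. The standard matrix is of type `HTy` and has the right coordinates. Model: PLAH of TH, `Pool/Agent/Helper73/TH/M_PLAH.lean`. -/
def HPlA7 : Prop := ∀ (μ r s : ℕ) (x : ZMod (7 ^ r)) (y : ZMod (7 ^ s)),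
  PlH μ 1 (x.val : ℤ) (rYH μ x y) (1 + 7 ^ (μ + 1) * (x.val : ℤ) * rYH μ x y) x y

/-- The content of EDGH7. -/
def HEdg7 : Prop := ∀ (R : Type) (_ : AddCommGroup R) (μ r s : ℕ) (G : ℤ → ℤ → R),
  SymH 7 (r + μ) (s + 1) G → ∀ (u1 u2 v1 v2 : ℤ), (u1 ≠ 0 ∨ u2 ≠ 0) → (v1 ≠ 0 ∨ v2 ≠ 0) →
  ∀ (x : ZMod (7 ^ r)) (y : ZMod (7 ^ s)) (a b c d : ℤ), PlH μ a b c d x y →
  edgeH μ u1 u2 v1 v2 G x y = G (a * u1 + 7 ^ μ * b * u2) (7 * c * u1 + d * u2) -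
    G (a * v1 + 7 ^ μ * b * v2) (7 * c * v1 + d * v2)

/-- EDGH7. Model: EDGH of TH, `Pool/Agent/Helper9/TH/M_EDGH.lean`. -/
def StHEdg7 : Prop := HPlA7 → HEdg7

/-- Balanced new symbols, even exponent `n = 2k`. -/
def BalEH (k : ℕ) (G : ℤ → ℤ → ℂ) : Prop :=
  SymH 7 k k G ∧ EqC (∑ i ∈ Finset.range 7, act 1 (i * 7 ^ (k - 1)) 0 1 G) 0 ∧
    EqC (∑ i ∈ Finset.range 7, act 1 0 (2 * i * 7 ^ (k - 1)) 1 G) 0 ∧
    EqC (act 0 (-1) 2 0 G) (-G) ∧ EqC (act (-1) 0 0 1 G) G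

/-- Balanced new symbols, odd exponent `n = 2k+1`. -/
def BalOH (k : ℕ) (G : ℤ → ℤ → ℂ) : Prop :=
  SymH 7 k (k + 1) G ∧ EqC (∑ i ∈ Finset.range 7, act 1 (i * 7 ^ (k - 1)) 0 1 G) 0 ∧
    EqC (∑ i ∈ Finset.range 7, act 1 0 (2 * i * 7 ^ k) 1 G) 0 ∧
    EqC (act 0 (-1) 14 0 G) (-G) ∧ EqC (act (-1) 0 0 1 G) G

/-- BALH7. Model: BALH of TH, `Pool/Agent/Helper83/TH/M_BALH.lean`. -/
def HBal7 : Prop := ∀ (k : ℕ) (G : ℤ → ℤ → ℂ), 1 ≤ k →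
  (NewSymH 7 (2 * k) G → BalEH k (act 1 0 0 (7 ^ k) G)) ∧
  (NewSymH 7 (2 * k + 1) G → BalOH k (act 1 0 0 (7 ^ k) G)) ∧
  (Homog G → EqC (act 1 0 0 (7 ^ k) G) 0 → EqC G 0)

/-! ### Functions on the plane -/

/-- `(x, y) ↦ (y/2, 2x)`. -/
def swH {m : ℕ} (p : Pt m) : Pt m := (p.2 * (2 : ZMod (7 ^ m))⁻¹, 2 * p.1)

/-- Odd exponent (`μ = 0`): the circle around `1/2`, matrix `(7 -3; 14 -7)`, `b (2 -1; 14 -6) = 2 (7 -3; 14 -7)`. -/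
def cOH {m : ℕ} (p : Pt m) : Pt m := trp 0 2 (-1) 2 (-6) (swH p)

/-- Odd exponent: the circle around `2/7`, matrix `(4 -1; 14 -4) = * (-4 1; 14 -4)`. -/
def sOH {m : ℕ} (p : Pt m) : Pt m := trp 0 (-4) 1 2 (-4) (ng p)

/-- Even exponent (`μ = 1`): the circle around `5/7`, matrix `(10 -7; 14 -10) = * (-10 7; 14 -10)`. -/
def sEH {m : ℕ} (p : Pt m) : Pt m := trp 1 (-10) 1 2 (-10) (ng p)

/-- Even exponent: the circle over `[3/4, 1]`, matrix `(7 -6; 8 -7)`, `b (8 -7; 14 -12) = 2 (7 -6; 8 -7)`. -/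
def cHH {m : ℕ} (p : Pt m) : Pt m := trp 1 8 (-1) 2 (-12) (swH p)

/-- Even exponent: the circle over `[1, 4/3]`, matrix `(7 -8; 6 -7)`, `b (6 -7; 14 -16) = 2 (7 -8; 6 -7)`. -/
def cMH {m : ℕ} (p : Pt m) : Pt m := trp 1 6 (-1) 2 (-16) (swH p)

/-- Even exponent: the circle over `[3/2, 2]`, matrix `(7 -12; 4 -7)`, `b (4 -7; 14 -24) = 2 (7 -12; 4 -7)`. -/
def cNH {m : ℕ} (p : Pt m) : Pt m := trp 1 4 (-1) 2 (-24) (swH p)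

/-- Even exponent: the rotation of order two which exchanges `2` and `5/2`, matrix `(14 -33; 6 -14) = (0 -1; 2 0) (3 -7; -14 33)`. -/
def dlH {m : ℕ} (p : Pt m) : Pt m := trp 1 3 (-1) (-2) 33 (ng (swH p))

/-- Even exponent: the glide reflection which maps `4/3` to `5/2` and `3/2` to `3`, matrix `(28 -39; 10 -14) = b (5 -7; 28 -39)` (not an involution). -/
def glH {m : ℕ} (p : Pt m) : Pt m := trp 1 5 (-1) 4 (-39) (swH p)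

/-- Even exponent: the circle over `[3, 4]`, matrix `(7 -24; 2 -7)`, `b (2 -7; 14 -48) = 2 (7 -24; 2 -7)`. -/
def cCH {m : ℕ} (p : Pt m) : Pt m := trp 1 2 (-1) 2 (-48) (swH p)

/-- TYPH7. The maps above and their types (`Ty` of W7: general derivatives). Proof as TYPH of TH (`Pool/Agent/Helper42/TH/M_TYPH.lean`): `trp μ M' (trp μ M p) = trp μ (M M') p`, `trp` does not change under scalars prime to `7`, `swH (trp μ a b c d p) = trp μ d (c/2) (2b) a (swH p)` (`c` even), `ng (trp μ a b c d p) = trp μ a (-b) (-c) d (ng p)`,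
`ng (swH p) = swH (ng p)`; so all relations are identities of matrices up to a scalar. Derivatives: `det/a²`, `det/d²` modulo `7` (and `1/2`, `2` for `swH`). For the last part (`glH` only has to preserve `anti7`): composition with `glH` maps `anti7 m` to `anti7 m` (type `1` maps do: translates by `(0, j t)` go to translates by `(s j t, 0)` etc., `t = 7^(m-1)`). -/
def HTyp7 : Prop := ∀ m : ℕ,
  (Kl (ng : Pt m → Pt m) swH ∧ Ty 0 (ng : Pt m → Pt m) ∧ Ty 1 (swH : Pt m → Pt m) ∧ Ty 1 (fun p : Pt m => ng (swH p))) ∧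
  (Kl (dR 0 : Pt m → Pt m) cOH ∧ Ty 0 (dR 0 : Pt m → Pt m) ∧ Ty 1 (cOH : Pt m → Pt m) ∧ Ty 1 (fun p : Pt m => dR 0 (cOH p))) ∧
  (Kl (dR 1 : Pt m → Pt m) cCH ∧ Ty 0 (dR 1 : Pt m → Pt m) ∧ Ty 1 (cCH : Pt m → Pt m) ∧ Ty 1 (fun p : Pt m => dR 1 (cCH p))) ∧
  (Kl (swH : Pt m → Pt m) sOH ∧ Kl (cOH : Pt m → Pt m) sOH ∧ Iv (sOH : Pt m → Pt m) ∧ Ty 0 (sOH : Pt m → Pt m) ∧
    Ty 1 (fun p : Pt m => swH (sOH p)) ∧ Ty 1 (fun p : Pt m => cOH (sOH p))) ∧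
  (Kl (swH : Pt m → Pt m) sEH ∧ Kl (cHH : Pt m → Pt m) sEH ∧ Ty 0 (sEH : Pt m → Pt m) ∧ Ty 1 (cHH : Pt m → Pt m) ∧
    Ty 1 (fun p : Pt m => swH (sEH p)) ∧ Ty 1 (fun p : Pt m => cHH (sEH p))) ∧
  (Iv (cMH : Pt m → Pt m) ∧ Ty 1 (cMH : Pt m → Pt m)) ∧ (Iv (cNH : Pt m → Pt m) ∧ Ty 1 (cNH : Pt m → Pt m)) ∧
  (Iv (dlH : Pt m → Pt m) ∧ Ty 1 (dlH : Pt m → Pt m)) ∧ Ty 1 (glH : Pt m → Pt m)

/-- The target for odd exponents: `((f, l), e)`, the values on the paths `0 → ∞`, `1/2 → ∞`, `2/7 → ∞`. -/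
def subOH (m : ℕ) : Submodule ℂ (((Pt m → ℂ) × (Pt m → ℂ)) × (Pt m → ℂ)) where
  carrier := {F | F.1.1 ∈ inv7 (m := m) ng swH 1 1 ∧ F.1.2 ∈ inv7 (m := m) (dR 0) cOH 1 1 ∧
    F.2 ∈ inv1 (m := m) sOH (-1) ∧
    ∀ p : Pt m, F.2 p + F.2 (swH p) + F.1.1 (sOH p) - F.1.1 p = 0 ∧
      F.2 p + F.2 (cOH p) + F.1.2 (sOH p) - F.1.2 p = 0}
  add_mem' := by
    rintro F F' ⟨h0, h1, h2, h⟩ ⟨h0', h1', h2', h'⟩
    refine ⟨Submodule.add_mem _ h0 h0', Submodule.add_mem _ h1 h1', Submodule.add_mem _ h2 h2',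
      fun p => ?_⟩
    obtain ⟨a1, a2⟩ := h p
    obtain ⟨b1, b2⟩ := h' p
    simp only [Prod.fst_add, Prod.snd_add, Pi.add_apply]
    exact ⟨by linear_combination a1 + b1, by linear_combination a2 + b2⟩
  zero_mem' := ⟨Submodule.zero_mem _, Submodule.zero_mem _, Submodule.zero_mem _,
    by intro p; simp⟩
  smul_mem' := by
    rintro c F ⟨h0, h1, h2, h⟩
    refine ⟨Submodule.smul_mem _ c h0, Submodule.smul_mem _ c h1, Submodule.smul_mem _ c h2,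
      fun p => ?_⟩
    obtain ⟨a1, a2⟩ := h p
    simp only [Prod.smul_fst, Prod.smul_snd, Pi.smul_apply, smul_eq_mul]
    exact ⟨by linear_combination c * a1, by linear_combination c * a2⟩

/-- The value of `{∞, 3}` in terms of `F1 = {∞, 1}`, `M = {1, 4/3}`, `E = {4/3, 3/2}`, `N = {3/2, 2}`, `D = {2, 5/2}` (`{5/2, 3} = -E∘glH`). -/
def SS {m : ℕ} (F1 M E N D : Pt m → ℂ) (p : Pt m) : ℂ :=
  F1 p + M p + E p + N p + D p - E (glH p)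

/-- The target for even exponents: `((f, h), (F1, M), (E, (N, D)))`, `f = {∞, 0}`, `h = {1, 3/4}`. -/
def subEH (m : ℕ) : Submodule ℂ (((Pt m → ℂ) × (Pt m → ℂ)) × ((Pt m → ℂ) × (Pt m → ℂ)) ×
    ((Pt m → ℂ) × (Pt m → ℂ) × (Pt m → ℂ))) where
  carrier := {F | F.1.1 ∈ inv7 (m := m) ng swH 1 1 ∧ F.1.2 ∈ inv7 (m := m) cHH sEH (-1) (-1) ∧
    F.2.1.1 ∈ anti7 m ∧ F.2.1.2 ∈ inv1 (m := m) cMH (-1) ∧ F.2.2.1 ∈ anti7 m ∧
    F.2.2.2.1 ∈ inv1 (m := m) cNH (-1) ∧ F.2.2.2.2 ∈ inv1 (m := m) dlH 1 ∧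
    (∀ p : Pt m, F.2.1.1 p + F.2.1.1 (swH p) - F.2.1.1 (sEH p) - F.2.1.1 (swH (sEH p)) +
      F.1.1 (sEH p) - F.1.1 p + F.1.2 p + F.1.2 (swH p) = 0) ∧
    (∀ p : Pt m, SS F.2.1.1 F.2.1.2 F.2.2.1 F.2.2.2.1 F.2.2.2.2 p +
      SS F.2.1.1 F.2.1.2 F.2.2.1 F.2.2.2.1 F.2.2.2.2 (cCH p) -
      SS F.2.1.1 F.2.1.2 F.2.2.1 F.2.2.2.1 F.2.2.2.2 (dR 1 p) -
      SS F.2.1.1 F.2.1.2 F.2.2.1 F.2.2.2.1 F.2.2.2.2 (dR 1 (cCH p)) = 0)}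
  add_mem' := by
    rintro F F' ⟨h0, h1, h2, h3, h4, h5, h6, h7, h8⟩ ⟨h0', h1', h2', h3', h4', h5', h6', h7', h8'⟩
    refine ⟨Submodule.add_mem _ h0 h0', Submodule.add_mem _ h1 h1', (anti7 m).add_mem h2 h2',
      Submodule.add_mem _ h3 h3', (anti7 m).add_mem h4 h4', Submodule.add_mem _ h5 h5',
      Submodule.add_mem _ h6 h6', fun p => ?_, fun p => ?_⟩
    · have a := h7 p
      have b := h7' p
      simp only [Prod.fst_add, Prod.snd_add, Pi.add_apply]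
      linear_combination a + b
    · have a := h8 p
      have b := h8' p
      simp only [SS, Prod.fst_add, Prod.snd_add, Pi.add_apply] at a b ⊢
      linear_combination a + b
  zero_mem' := ⟨Submodule.zero_mem _, Submodule.zero_mem _, (anti7 m).zero_mem,
    Submodule.zero_mem _, (anti7 m).zero_mem, Submodule.zero_mem _, Submodule.zero_mem _,
    by intro p; simp, by intro p; simp [SS]⟩
  smul_mem' := by
    rintro c F ⟨h0, h1, h2, h3, h4, h5, h6, h7, h8⟩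
    refine ⟨Submodule.smul_mem _ c h0, Submodule.smul_mem _ c h1, (anti7 m).smul_mem c h2,
      Submodule.smul_mem _ c h3, (anti7 m).smul_mem c h4, Submodule.smul_mem _ c h5,
      Submodule.smul_mem _ c h6, fun p => ?_, fun p => ?_⟩
    · have a := h7 p
      simp only [Prod.smul_fst, Prod.smul_snd, Pi.smul_apply, smul_eq_mul]
      linear_combination c * a
    · have a := h8 p
      simp only [SS, Prod.smul_fst, Prod.smul_snd, Pi.smul_apply, smul_eq_mul] at a ⊢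
      linear_combination c * a

/-- The content of DIMOH7. -/
def HDimO7 : Prop := ∀ m : ℕ, 1 ≤ m →
  Module.finrank ℂ (subOH m) = 18 * 49 ^ (m - 1) + 6 * 7 ^ (m - 1)

/-- DIMOH7 (from TYPH7, DIMK, SPLIT of W7). `a = 49^(m-1)`, `b = 7^(m-1)`. `Vf = inv7 ng swH 1 1`, `Vl = inv7 (dR 0) cOH 1 1` have dimension `9a + 3b` (types `0, 1, 1`), `Ve = inv1 sOH (-1)` has dimension `18a` (`S7DimK` states `inv1` only for type `1`, but every `F` in `Ve` is the sum of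
`(F + F∘swH)/2` in `inv7 swH sOH 1 (-1)` and `(F - F∘swH)/2` in `inv7 swH sOH (-1) (-1)`, both of dimension `9a`, types `1, 0, 1`), `VB = inv7 swH sOH 1 (-1)` and `VC = inv7 cOH sOH 1 (-1)` have dimension `9a` (types `1, 0, 1`: `e n + e' n' + e e' n'' = 1 + 0 - 1`). The map
`(f, l, e) ↦ (e + e∘swH + f∘sOH - f, e + e∘cOH + l∘sOH - l)` from `Vf × Vl × Ve` to `VB × VC` is onto: given `(φ, ψ)` let (SPLIT, `μ = 0`) `φ/4 = f0 + l0`, `ψ/4 = f1 + l1`, `f0, f1` invariant under `ng`, `l0, l1` under `dR 0`; `u = l0 + f1`, `e = u - u∘sOH`, `f = -(f0 + f0∘swH) + (f1 + f1∘swH)`, `l = (l0 + l0∘cOH) - (l1 + l1∘cOH)`. Then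
`(1 + swH)u - f = (1 + swH)(l0 + f0) = (1 + swH) φ/4 = φ/2` and the first component is `(1 - sOH)(φ/2) = φ`; `(1 + cOH)u - l = (1 + cOH)(f1 + l1) = ψ/2`, second component `ψ`. The kernel is `subOH m`: `(9a+3b) + (9a+3b) + 18a - 9a - 9a`. Model: DIMOH, DIMEH of TH (`Pool/Agent/Helper75/TH/M_DIMOH.lean`, `Pool/Agent/Helper3/TH/M_DIMEH.lean`). -/
def StHDimO7 : Prop := HTyp7 → S7DimK → S7Split → HDimO7

/-- The content of DIMEH7. -/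
def HDimE7 : Prop := ∀ m : ℕ, 1 ≤ m → Module.finrank ℂ (subEH m) = 126 * 49 ^ (m - 1)

/-- DIMEH7 (from TYPH7, DIMK, SPLIT of W7). `V = anti7 m` has dimension `36a`, `Vf = inv7 ng swH 1 1` has `9a + 3b` (types `0, 1, 1`), `Vh = inv7 cHH sEH (-1) (-1)` has `9a` (types `1, 0, 1`: `-1 + 0 + 1`), `VM = inv1 cMH (-1)` and `VN = inv1 cNH (-1)` have `18a - 3b`, `VD = inv1 dlH 1` has `18a + 3b`,
`V8 = inv7 swH sEH 1 (-1)` has `9a` (types `1, 0, 1`), `V3 = inv7 (dR 1) cCH (-1) 1` has `9a` (types `0, 1, 1`). `P3 F = F + F∘cCH - F∘dR 1 - F∘(dR 1)∘cCH`. The map `((f, h), (F1, M), (E, N, D)) ↦ (F1 + F1∘swH - F1∘sEH - F1∘swH∘sEH + f∘sEH - f + h + h∘swH, P3 (SS F1 M E N D))` from `(Vf × Vh) × (V × VM) × (V × VN × VD)` to `V8 × V3`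
(`SS` preserves `anti7 m` as `glH` is of type `1`; `h + h∘swH` is invariant under `swH` and `h∘sEH = -h`) is onto: given `(φ, ψ)` let (SPLIT, `μ = 1`) `ψ/4 = f0 + l0`, `φ/4 = f1 + l1`, `f0, f1` invariant under `ng`, `l0, l1` under `dR 1`; take `F1 = f0 + l1`, `f = (f0 + f0∘swH) - (f1 + f1∘swH)`, the others `0`. First component:
`(1 - sEH)((1 + swH) F1 - f) = (1 - sEH)(1 + swH)(l1 + f1) = 4 φ/4 = φ`; second: `P3 l1 = P3 l0 = 0`, `P3 F1 = P3 f0 = P3 (ψ/4) = ψ`. The kernel is `subEH m`: `(9a+3b) + 9a + 36a + (18a-3b) + 36a + (18a-3b) + (18a+3b) - 9a - 9a = 126a`. Model: DIMEH of TH, `Pool/Agent/Helper3/TH/M_DIMEH.lean`. -/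
def StHDimE7 : Prop := HTyp7 → S7DimK → S7Split → HDimE7

/-! ### Representatives -/

/-- Fifty-six representatives with bottom row `≡ (0, 1)` modulo `2` (of the classes of `SL₂(ℤ)` modulo `(* 7*; 14* *)`). -/
def LH01 : List (ℤ × ℤ × ℤ × ℤ) :=
  [(-11, -2, 6, 1), (5, -4, 4, -3), (1, 0, 2, 1), (-7, -9, 4, 5), (-1, -2, 0, -1), (3, -2, 2, -1), (-1, 0, 0, -1),
   (-1, 1, 2, -3), (1, 0, 6, 1), (-3, 1, 2, -1), (-1, 1, 0, -1), (-1, -2, 2, 3), (7, -9, 4, -5), (3, 4, 2, 3),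
   (-3, -2, 2, 1), (1, 0, 4, 1), (1, 1, 6, 7), (-1, -1, 0, -1), (-1, 2, 2, -5), (-1, 3, 2, -7), (-7, 5, 4, -3),
   (-1, 1, 6, -7), (-3, 2, 4, -3), (-11, 9, 6, -5), (-11, -13, 6, 7), (-1, 0, 6, -1), (1, -1, 4, -3), (5, -3, 2, -1),
   (7, -2, 4, -1), (5, 2, 2, 1), (1, 2, 2, 5), (-1, 0, 4, -1), (-1, -1, 2, 1), (7, 5, 4, 3), (-5, 2, 2, -1),
   (-5, -3, 2, 1), (-1, -3, 0, -1), (3, 1, 2, 1), (-3, 4, 2, -3), (-5, 1, 4, -1), (-1, 0, 2, -1), (-5, -4, 4, 3),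
   (11, -13, 6, -7), (11, -2, 6, -1), (1, -1, 2, -1), (1, -2, 2, -3), (-1, -1, 4, 3), (5, 1, 4, 1), (1, 3, 2, 7),
   (-7, -2, 4, 1), (3, 2, 4, 3), (11, 9, 6, 5), (-1, 2, 0, -1), (-7, 12, 4, -7), (-1, 3, 0, -1), (1, 1, 2, 3)]

/-- Fifty-six representatives with bottom row `≡ (1, 0)` modulo `2`. -/
def LH10 : List (ℤ × ℤ × ℤ × ℤ) :=
  [(-13, 11, 7, -6), (2, -3, 3, -4), (1, -1, 1, 0), (-2, -1, 5, 2), (0, -1, 1, -4), (13, 11, 7, 6), (-9, -11, 5, 6),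
   (4, -3, 3, -2), (-12, -7, 7, 4), (2, 11, 1, 6), (0, -1, 1, 6), (1, -5, 1, -4), (-9, 7, 5, -4), (2, -1, 5, -2),
   (-2, -1, 1, 0), (-5, -7, 3, 4), (-1, -1, 3, 2), (-1, 1, 3, -4), (3, 5, 1, 2), (1, -1, 3, -2), (9, 7, 5, 4),
   (-2, 7, 1, -4), (0, -1, 1, -6), (-1, -5, 1, 4), (2, 1, 3, 2), (1, -3, 1, -2), (1, 1, 3, 4), (0, -1, 1, 0),
   (3, -1, 7, -2), (-1, -1, 1, 0), (-2, -5, 1, 2), (2, -5, 1, -2), (9, -11, 5, -6), (1, 1, 1, 2), (-2, 1, 3, -2),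
   (-3, -1, 1, 0), (-2, 3, 1, -2), (-2, -3, 3, 4), (1, -1, 7, -6), (0, -1, 1, -2), (-4, -3, 3, 2), (2, -1, 1, 0),
   (-1, -3, 1, 2), (4, 5, 3, 4), (-1, -1, 7, 6), (3, -1, 1, 0), (-4, 5, 3, -4), (5, -7, 3, -4), (-3, 5, 1, -2),
   (-1, 1, 1, -2), (0, -1, 1, 2), (0, -1, 1, 4), (2, 3, 1, 2), (-3, -1, 7, 2), (2, 7, 1, 4), (-2, 11, 1, -6)]

/-- Fifty-six representatives with bottom row `≡ (1, 1)` modulo `2`. -/
def LH11 : List (ℤ × ℤ × ℤ × ℤ) :=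
  [(-9, -2, 5, 1), (2, 9, 1, 5), (2, 5, 1, 3), (4, 1, 3, 1), (0, -1, 1, 1), (-2, -3, 5, 7), (1, 0, 1, 1),
   (-12, 5, 7, -3), (-2, -3, 1, 1), (2, 1, 5, 3), (1, 2, 1, 3), (-4, 3, 1, -1), (-13, -2, 7, 1), (1, 0, 5, 1),
   (-1, 0, 1, -1), (13, -2, 7, -1), (5, -12, 3, -7), (-5, -2, 3, 1), (1, 0, 3, 1), (2, -3, 5, -7), (-2, 1, 5, -3),
   (1, -2, 1, -1), (1, -4, 1, -3), (-1, 0, 7, -1), (-2, 9, 1, -5), (0, -1, 1, 3), (0, -1, 1, 5), (1, -2, 3, -5),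
   (-1, 0, 5, -1), (-3, -4, 1, 1), (-2, 13, 1, -7), (-1, 0, 3, -1), (-3, 2, 1, -1), (-2, 1, 1, -1), (0, -1, 1, -1),
   (-2, -1, 3, 1), (9, -2, 5, -1), (-4, 1, 3, -1), (-2, 5, 1, -3), (3, 2, 7, 5), (0, -1, 1, -5), (-1, -2, 3, 5),
   (-5, -12, 3, 7), (-3, 2, 7, -5), (2, -3, 1, -1), (-1, -4, 1, 3), (-1, -2, 1, 1), (0, -1, 1, -3), (3, 2, 1, 1),
   (12, 5, 7, 3), (0, -1, 1, -7), (2, -1, 3, -1), (-1, 2, 1, -3), (5, -2, 3, -1), (2, 13, 1, 7), (2, 1, 1, 1)]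

/-- The twenty-four representatives of `Γ₀(14) \ SL₂(ℤ)`. -/
def LHO : List (ℤ × ℤ × ℤ × ℤ) :=
  [(1, 0, 0, 1), (0, -1, 1, 0), (0, -1, 1, 1), (0, -1, 1, 2), (0, -1, 1, -2), (0, -1, 1, 3), (0, -1, 1, -3),
   (-1, 0, 1, -1), (1, 0, 2, 1), (-1, 0, 2, -1), (1, 0, 3, 1), (-1, 0, 3, -1), (1, 1, 2, 3), (-1, 1, 2, -3),
   (1, -1, 3, -2), (-1, -1, 3, 2), (1, 1, 3, 4), (-1, 1, 3, -4), (1, -1, 4, -3), (-1, -1, 4, 3), (-1, 2, 3, -7),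
   (-1, -2, 4, 7), (-2, 1, 7, -4), (-2, -1, 7, 3)]

/-- The content of E1AH7. -/
def HE1a7 : Prop := ∀ (k : ℕ) (G : ℤ → ℤ → ℂ), 2 ≤ k → BalEH k G →
  (((fun p : Pt (k - 1) => edgeH 1 1 0 0 1 G p.1 p.2), (fun p : Pt (k - 1) => edgeH 1 1 1 3 4 G p.1 p.2)),
    ((fun p : Pt (k - 1) => edgeH 1 1 0 1 1 G p.1 p.2), (fun p : Pt (k - 1) => edgeH 1 1 1 4 3 G p.1 p.2)),
    ((fun p : Pt (k - 1) => edgeH 1 4 3 3 2 G p.1 p.2), (fun p : Pt (k - 1) => edgeH 1 3 2 2 1 G p.1 p.2),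
      (fun p : Pt (k - 1) => edgeH 1 2 1 5 2 G p.1 p.2))) ∈ subEH (k - 1)

/-- E1AH7 (from EDGH7, PLAH7). Even exponent, `m = k - 1`, `μ = 1`, `{u, v} = G(gu) - G(gv)`: `f = {∞, 0}`, `h = {1, 3/4}`, `F1 = {∞, 1}`, `M = {1, 4/3}`, `E = {4/3, 3/2}`, `N = {3/2, 2}`, `D = {2, 5/2}`. (i) `anti7` as in E1AH of TH. (ii) By the rule at the head of this file: `f(ng p) = f(p)`, `f(swH p) = -{0, ∞} = f(p)`; `h(cHH p) = -h(p)`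
(`(7 -6; 8 -7)` fixes `1`, `3/4`), `h(sEH p) = {3/4, 1} = -h(p)` (`(10 -7; 14 -10)` exchanges them); `M(cMH p) = -M(p)`, `N(cNH p) = -N(p)` (fixed ends); `D(dlH p) = -{5/2, 2} = D(p)`. (iii) Octagon `∞, 1, 3/4, 5/7, 7/10, 2/3, 1/2, 0`: `F1(p) = {∞, 1}`, `h(p) = {1, 3/4}`, `F1(sEH p) = {5/7, 3/4}`, `f(sEH p) = {5/7, 7/10}`,
`F1(swH (sEH p)) = -{7/10, 2/3}` (the matrix `b (10 -7; 14 -10)`, rule `b * M`; `swH` and `sEH` commute); `h(swH p) = -{1/2, 2/3}`, `F1(swH p) = -{0, 1/2}`, `f(p) = {∞, 0}`. So `F1(p) + h(p) - F1(sEH p) + f(sEH p) - F1(swH (sEH p)) + h(swH p) + F1(swH p) - f(p)` is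
`{∞,1} + {1,3/4} + {3/4,5/7} + {5/7,7/10} + {7/10,2/3} + {2/3,1/2} + {1/2,0} + {0,∞} = 0`. (iv) `E(glH p) = -{5/2, 3}` (`(28 -39; 10 -14)` maps `4/3, 3/2` to `5/2, 3`), so `SS = {∞, 3} =: S`; square `∞, 3, 7/2, 4`: `S(cCH p) = -{7/2, 3}`, `S(dR 1 p) = {∞, 4}`, `S(dR 1 (cCH p)) = -{7/2, 4}`. Model: E1AH of TH, `Pool/Agent/Helper11/TH/M_E1AH.lean`. -/
def StHE1a7 : Prop := HEdg7 → HPlA7 → HTyp7 → HE1a7

/-- The content of E1BH7. -/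
def HE1b7 : Prop := ∀ (k : ℕ) (G : ℤ → ℤ → ℂ), 2 ≤ k → BalEH k G →
  (∀ x y : ZMod (7 ^ (k - 1)), (edgeH 1 1 0 0 1 G x y = 0 ∧ edgeH 1 1 1 3 4 G x y = 0) ∧
    (edgeH 1 1 0 1 1 G x y = 0 ∧ edgeH 1 1 1 4 3 G x y = 0) ∧
    (edgeH 1 4 3 3 2 G x y = 0 ∧ edgeH 1 3 2 2 1 G x y = 0 ∧ edgeH 1 2 1 5 2 G x y = 0)) → EqC G 0

/-- E1BH7 (from EDGH7, PLAH7, FAR). `~` as in E1BH of TH (`Pool/Agent/Helper74/TH/M_E1BH.lean`), invariant under `(a 7b; 7c d)` of type `HTy`, `*`, `b = (0 1; 2 0)`. Given: `∞ ~ 0`, `1 ~ 3/4`, `∞ ~ 1`, `1 ~ 4/3`, `4/3 ~ 3/2`, `3/2 ~ 2`, `2 ~ 5/2`. So all these are equivalent, with `*` also their negatives. Then (apply the word, then the matrix to a known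
equivalence): `∞ ~ 1/2` (`0 ~ 1` by `b`); `∞ ~ 1/4` (`0 ~ 2` by `b`); `∞ ~ 1/3` (`0 ~ 3/2` by `b`); `0 ~ 2/3` (`∞ ~ 3/4` by `b`); `0 ~ 1/5` (`∞ ~ 5/2` by `b`); `-1 ~ -5/4` (`-1/2 ~ -1/3` by `(16 7; -14 -6)`); `0 ~ 2/5` (`∞ ~ 5/4` by `b`); `1/2 ~ 3/7` (`1 ~ ∞` by `(-6 7; -14 16)`); `-3/2 ~ -12/7` (`-1/3 ~ ∞` by `(-24 -7; 14 4)`);
`-12/7 ~ -7/4` (`∞ ~ 0` by `(-24 -7; 14 4)`); `-12/7 ~ -5/3` (`∞ ~ -1/2` by `(-24 -7; 14 4)`); `-12/7 ~ -11/6` (`∞ ~ -1/5` by `(-24 -7; 14 4)`); `5/2 ~ 3` (`4/3 ~ 3/2` by `b`, `(39 -14; 14 -5)`); `0 ~ 1/6` (`∞ ~ 3` by `b`); `∞ ~ 4` (`∞ ~ -3` by `(-1 -7; 0 -1)`); `-12/7 ~ -9/5` (`∞ ~ -1/6` by `(-24 -7; 14 4)`);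
`1/6 ~ 1/7` (`3 ~ ∞` by `(-2 7; -14 48)`); `5/2 ~ 7/3` (`-1/4 ~ 0` by `(33 7; 14 3)`); `-7/4 ~ -13/7` (`∞ ~ -7/3` by `b`, `(-24 -7; 14 4)`). With `*`: `∞, 0`, `±1, ±1/2, ±2, ±3, ±1/3, ±3/2, ±2/3, ±3/4, ±4/3, ±4, ±1/4, ±5/4, ±2/5, ±5/3, ±1/5, ±5/2, ±1/6, ±3/7, ±7/4, ±1/7, ±9/5, ±11/6, ±12/7, ±13/7` are equivalent: both cusps of every matrix in
`LH01`, `LH10`, `LH11`. Every matrix of `SL₂(ℤ)` is `g' ρ`, `g' = (a 7b; 14c d)` of determinant one, `ρ` in the list of its parity (`decide` on `ZMod 7` for each list; exactly one `ρ` of each list satisfies `7 ∣ q r1 - p r2`, `7 ∣ r r4 - s r3`). FAR. -/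
def StHE1b7 : Prop := HEdg7 → HPlA7 → StFar → HE1b7

/-- The content of O1H7. -/
def HO17 : Prop := ∀ (k : ℕ) (G : ℤ → ℤ → ℂ), 1 ≤ k → BalOH k G →
  ((((fun p : Pt k => edgeH 0 1 0 0 1 G p.1 p.2), (fun p : Pt k => edgeH 0 1 0 1 2 G p.1 p.2)),
    (fun p : Pt k => edgeH 0 1 0 2 7 G p.1 p.2)) ∈ subOH k) ∧
  ((∀ x y : ZMod (7 ^ k), edgeH 0 1 0 0 1 G x y = 0 ∧ edgeH 0 1 0 1 2 G x y = 0 ∧
    edgeH 0 1 0 2 7 G x y = 0) → EqC G 0)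

/-- O1H7 (from EDGH7, PLAH7, FAR). Odd exponent, `m = k`, `μ = 0`, `b = (0 1; 14 0)`: `f = {∞, 0}`, `l = {∞, 1/2}`, `e = {∞, 2/7}`. `f(ng p) = f(p)`, `f(swH p) = f(p)`; `l(dR 0 p) = l(p)`, `l(cOH p) = -{1/2, ∞} = l(p)` (`(7 -3; 14 -7)`); `e(sOH p) = {2/7, ∞} = -e(p)` (`(4 -1; 14 -4)`). Square `∞, 2/7, 1/4, 0`: `e(p) = {∞, 2/7}`,
`f(sOH p) = {2/7, 1/4}`, `e(swH p) = -{0, 1/4}`, `f(p) = {∞, 0}`: `e(p) + f(sOH p) + e(swH p) - f(p) = 0`. Square `∞, 2/7, 1/3, 1/2`: `l(sOH p) = {2/7, 1/3}`, `e(cOH p) = -{1/2, 1/3}`: `e(p) + l(sOH p) + e(cOH p) - l(p) = 0`. Injectivity (`~` as in E1BH7 for `(a b; 7c d)` of type `HTy`): given `∞ ~ 0`, `∞ ~ 1/2`, `∞ ~ 2/7`; `∞ ~ 1/4` (`0 ~ 2/7` by `b`);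
`∞ ~ -1` (`∞ ~ 0` by `(1 -1; 0 1)`); `-1/2 ~ -1/3` (`0 ~ -1/4` by `(6 1; -14 -2)`); with `*`: `∞, 0, ±1, ±1/2, ±1/3, ±1/4, ±2/7` are equivalent: both cusps of every matrix in `LHO`; every matrix of `SL₂(ℤ)` is `g' ρ` with `g'` in `Γ₀(14)` and `ρ` in `LHO`. FAR. Model: O1H of TH. -/
def StHO17 : Prop := HEdg7 → HPlA7 → HTyp7 → StFar → HO17

/-- The dimension of the new symbols of level `2 * 7^n` (`W = -1`, `* = +1`), `n ≥ 3`. -/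
def ddH7 (n : ℕ) : ℕ :=
  if n % 2 = 1 then 18 * 49 ^ (n / 2 - 1) + 6 * 7 ^ (n / 2 - 1) else 126 * 49 ^ (n / 2 - 2)

/-- UBH7. For `n = 2k ≥ 4` the map to the seven functions in `subEH (k-1)`, of dimension `126·49^(k-2) = ddH7 n`; for `n = 2k+1 ≥ 3` the map to the three functions in `subOH k`, of dimension `ddH7 n`. Model: UBH of TH, `Pool/Agent/Helper80/TH/M_UBH.lean`. -/
def StHUB7 : Prop := HBal7 → HE1a7 → HE1b7 → HO17 → HDimE7 → HDimO7 → UBH 7 ddH7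

end Pool.Agent.Helper76.TH7
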