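import Pool.Agent.Helper76.TH.Wo
import Pool.Agent.Helper14.TH7.StD
import Pool.Agent.Helper79.THE.StE

/-!
# Project TH, module BAS (7,2): an integral family of symbols of level `2 * 7^n` with determinant prime to seven
-/

set_option autoImplicit false

namespace Pool.Agent.Helper76.TH7

open Pool.Agent.Helper14.CV (Homog EqC act Tl)
open Pool.Agent.Helper28.WK (Tw evw)
open Pool.Agent.Helper4.TL (OkE)
open Pool.Agent.Helper14.TH7
open Pool.Agent.Helper93.TLE (DDE)
open Pool.Agent.Helper93.TLH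
open Pool.Agent.Helper79.TL (OkCE)
open Pool.Agent.Helper79.THE (BasH)
open Pool.Agent.Helper79.S7 (evc)
open Pool.Agent.Helper76.TL.Wo (Gi WO wo_id wo_add wo_smul wo_sub wo_Tl wo_iter wo_ev unit_det)
open Pool.Agent.Helper76.TH.Wo (sym_GiH evc_GiH)

namespace Bas7M

private lemma wo_U {A : ∀ (R : Type) [AddCommGroup R], ℤ → (ℤ → ℤ → R) → (ℤ → ℤ → R)}
    (hA : WO 7 A) : WO 7 (fun R _ m G => UoH m (A R m G)) := by
  have h3 := wo_Tl 3 (by norm_num) (by norm_num) (by norm_num) hA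
  have h11 := wo_Tl 11 (by norm_num) (by norm_num) (by norm_num) hA
  have h23 := wo_Tl 23 (by norm_num) (by norm_num) (by norm_num) hA
  have h29 := wo_Tl 29 (by norm_num) (by norm_num) (by norm_num) hA
  have h37 := wo_Tl 37 (by norm_num) (by norm_num) (by norm_num) hA
  exact wo_add (wo_add (wo_add (wo_add (wo_add (wo_smul 3 hA) (wo_smul 3 h11)) (wo_smul 5 h23))
    (wo_smul 5 h29)) (wo_smul 5 h37))
    (wo_smul 6 (wo_Tl 3 (by norm_num) (by norm_num) (by norm_num) h3))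

private lemma wo_V {A : ∀ (R : Type) [AddCommGroup R], ℤ → (ℤ → ℤ → R) → (ℤ → ℤ → R)}
    (hA : WO 7 A) : WO 7 (fun R _ m G => VoH m (A R m G)) := by
  have h3 := wo_Tl 3 (by norm_num) (by norm_num) (by norm_num) hA
  have h5 := wo_Tl 5 (by norm_num) (by norm_num) (by norm_num) hA
  have h11 := wo_Tl 11 (by norm_num) (by norm_num) (by norm_num) hA
  have h13 := wo_Tl 13 (by norm_num) (by norm_num) (by norm_num) hA
  have h17 := wo_Tl 17 (by norm_num) (by norm_num) (by norm_num) hA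
  have h19 := wo_Tl 19 (by norm_num) (by norm_num) (by norm_num) hA
  have h23 := wo_Tl 23 (by norm_num) (by norm_num) (by norm_num) hA
  have h29 := wo_Tl 29 (by norm_num) (by norm_num) (by norm_num) hA
  have h37 := wo_Tl 37 (by norm_num) (by norm_num) (by norm_num) hA
  exact wo_add (wo_add (wo_add (wo_add (wo_add (wo_smul 5 h11) (wo_smul 4 h23)) (wo_smul 5 h29)) h37)
    (wo_Tl 3 (by norm_num) (by norm_num) (by norm_num)
      (wo_add (wo_add h3 (wo_smul 3 h5)) (wo_smul 3 h13))))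
    (wo_Tl 5 (by norm_num) (by norm_num) (by norm_num)
      (wo_add (wo_add (wo_add (wo_smul 6 h5) (wo_smul 4 h13)) (wo_smul 2 h17)) (wo_smul 4 h19)))

private lemma wo_O {A : ∀ (R : Type) [AddCommGroup R], ℤ → (ℤ → ℤ → R) → (ℤ → ℤ → R)}
    (hA : WO 7 A) (c : ℕ) : WO 7 (fun R _ m G => OoH c m (A R m G)) := by
  have h3 := wo_Tl 3 (by norm_num) (by norm_num) (by norm_num) hA
  have h5 := wo_Tl 5 (by norm_num) (by norm_num) (by norm_num) hA
  have h11 := wo_Tl 11 (by norm_num) (by norm_num) (by norm_num) hA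
  have h13 := wo_Tl 13 (by norm_num) (by norm_num) (by norm_num) hA
  have h17 := wo_Tl 17 (by norm_num) (by norm_num) (by norm_num) hA
  have h19 := wo_Tl 19 (by norm_num) (by norm_num) (by norm_num) hA
  have h23 := wo_Tl 23 (by norm_num) (by norm_num) (by norm_num) hA
  have h29 := wo_Tl 29 (by norm_num) (by norm_num) (by norm_num) hA
  have h37 := wo_Tl 37 (by norm_num) (by norm_num) (by norm_num) hA
  have h33 := wo_Tl 3 (by norm_num) (by norm_num) (by norm_num) h3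
  have h35 := wo_Tl 3 (by norm_num) (by norm_num) (by norm_num) h5
  unfold OoH
  split_ifs with c0 c1 c2 c3 c4
  · exact hA
  · exact wo_add (wo_smul 2 hA) (wo_smul 3 h3)
  · exact wo_add (wo_add (wo_smul 4 hA) (wo_smul 2 h3)) (wo_smul 5 h5)
  · exact wo_add (wo_add (wo_add (wo_add (wo_add (wo_smul 5 hA) (wo_smul 3 h3)) (wo_smul 3 h5))
      (wo_smul 4 h11)) h13) (wo_smul 2 h17)
  · exact wo_add (wo_add (wo_add (wo_smul 3 h3) (wo_smul 5 h13)) (wo_smul 2 h17)) (wo_smul 5 h35)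
  · exact wo_add (wo_add (wo_add (wo_add (wo_add (wo_add (wo_add (wo_add (wo_add (wo_smul 6 hA) h5)
      (wo_smul 3 h13)) (wo_smul 4 h17)) h19) (wo_smul 2 h23)) (wo_smul 2 h29)) (wo_smul 2 h37))
      (wo_smul 4 h33)) (wo_smul 4 h35)

end Bas7M

open Bas7M in
/-- The value `evH` is an integer combination of values at words, the same for all groups. -/
theorem evH_evc (c i j : ℕ) : ∃ C : List (ℤ × List ℕ), OkCE 7 C ∧
    ∀ (R : Type) [AddCommGroup R] (m : ℤ) (G : ℤ → ℤ → R), evH m G c i j = evc m C G :=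
  wo_ev (wo_O (wo_iter (B := fun R _ m => UoH m) (fun _ h => wo_U h)
    (wo_iter (B := fun R _ m => VoH m) (fun _ h => wo_V h) (wo_id 7) j) i) c)

namespace Bas7M

private lemma rh_le (c i j : ℕ) : rhH c i j ≤ dgH c i j := by
  unfold rhH dgH
  omega

private lemma key_lt {a b r s : ℕ} (h : a < b) (hr : r ≤ a) : a * a + r < b * b + s := by
  nlinarith

private lemma key_eq {a b r s : ℕ} (hr : r ≤ a) (hs : s ≤ b) (h : a * a + r = b * b + s) :
    a = b ∧ r = s := by
  have h1 : a = b := by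
    rcases lt_trichotomy a b with h' | h' | h'
    · have := key_lt (s := s) h' hr
      omega
    · exact h'
    · have := key_lt (s := r) h' hs
      omega
  subst h1
  exact ⟨rfl, by omega⟩

private theorem core (r s N n : ℕ) (I : Finset (ℕ × ℕ × ℕ))
    (hI : ∀ t ∈ I, t.1 ≤ 5 ∧ aeH t.1 + t.2.1 + 7 * t.2.2 < 7 ^ r ∧
      abH t.1 + t.2.1 + t.2.2 < 7 ^ s) (hN : I.card = N)
    (hn : r + (s + 1) = n) (hTri : TTri) (hLif : TLif) :
    ∃ (G : Fin N → ℤ → ℤ → ℤ) (C : Fin N → List (ℤ × List ℕ)), (∀ k, SymH 7 0 n (G k)) ∧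
      (∀ l, OkCE 7 (C l)) ∧ ¬ (7 : ℤ) ∣ Matrix.det (Matrix.of fun k l => evc 1 (C l) (G k)) := by
  choose Cw hCw hCe using evH_evc
  have h1 : ∀ t : I, ∃ G : ℤ → ℤ → ℤ, SymH 7 0 n G ∧
      (((evc 1 (Cw t.1.1 t.1.2.1 t.1.2.2) G : ℤ) : ZMod 7) ≠ 0) ∧
      ∀ c i j, c ≤ 5 → (((evc 1 (Cw c i j) G : ℤ) : ZMod 7) ≠ 0 →
        (dgH c i j < dgH t.1.1 t.1.2.1 t.1.2.2 ∨ (dgH c i j = dgH t.1.1 t.1.2.1 t.1.2.2 ∧
        (rhH c i j < rhH t.1.1 t.1.2.1 t.1.2.2 ∨
          (rhH c i j = rhH t.1.1 t.1.2.1 t.1.2.2 ∧ c = t.1.1))))) := by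
    intro t
    obtain ⟨hc, ha, hb⟩ := hI t.1 t.2
    obtain ⟨g, hg, hg1, hg2⟩ := hTri r s t.1.1 t.1.2.1 t.1.2.2 hc ha hb
    obtain ⟨G, hG, hGe⟩ := hLif r s g hg
    have hs := sym_GiH (p := 7) (by norm_num) (by norm_num) hG
    rw [hn] at hs
    have hev : ∀ c i j, ((evc 1 (Cw c i j) (Gi 7 r G) : ℤ) : ZMod 7) = evH (7 ^ r) g c i j := by
      intro c i j
      rw [evc_GiH (p := 7) (by norm_num) hG _ (hCw _ _ _), ← hCe]
      exact_mod_cast hGe c i j
    refine ⟨Gi 7 r G, hs, ?_, ?_⟩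
    · rw [hev]
      exact hg1
    · intro c i j hc1 hij
      apply hg2 c i j hc1
      rw [hev] at hij
      exact hij
  choose G hS hd hM using h1
  let M : Matrix I I ℤ := Matrix.of fun t u => evc 1 (Cw u.1.1 u.1.2.1 u.1.2.2) (G t)
  have hdet : ((M.det : ℤ) : ZMod 7) ≠ 0 := by
    refine unit_det (by norm_num)
      (fun t : I => dgH t.1.1 t.1.2.1 t.1.2.2 * dgH t.1.1 t.1.2.1 t.1.2.2 +
        rhH t.1.1 t.1.2.1 t.1.2.2)
      (fun _ : I => 0) (fun t : I => t.1.1) ?_ M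
      (fun t => hd t) (fun t u htu => ?_)
    · intro t u h2 _ h4
      obtain ⟨h5, h6⟩ := key_eq (rh_le _ _ _) (rh_le _ _ _) h2
      rw [h4] at h5 h6
      unfold dgH at h5
      unfold rhH at h6
      apply Subtype.ext
      apply Prod.ext
      · exact h4
      · apply Prod.ext
        · omega
        · omega
    · rcases hM t _ _ _ (hI u.1 u.2).1 htu with h8 | ⟨h8, h9 | ⟨h9, h10⟩⟩
      · left
        exact key_lt h8 (rh_le _ _ _)
      · left
        show _ * _ + _ < _ * _ + _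
        rw [h8]
        omega
      · right
        exact ⟨by show _ * _ + _ = _ * _ + _; rw [h8, h9], h10, le_refl _⟩
  let e : Fin N ≃ I := (I.equivFinOfCardEq hN).symm
  refine ⟨fun k => G (e k), fun l => Cw (e l).1.1 (e l).1.2.1 (e l).1.2.2, fun k => hS (e k),
    fun l => hCw _ _ _, ?_⟩
  have h2 : (Matrix.of fun k l => evc 1 (Cw (e l).1.1 (e l).1.2.1 (e l).1.2.2) (G (e k))) =
      M.submatrix e e := rfl
  rw [h2, Matrix.det_submatrix_equiv_self]
  intro h3
  exact hdet ((ZMod.intCast_zmod_eq_zero_iff_dvd _ 7).2 (by exact_mod_cast h3))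

end Bas7M

open Bas7M in
/-- BAS for the levels `2 * 7^n`. -/
theorem hBasH7 : TTri → TLif → TCnt → BasH 7 4 ddH7 := by
  intro hTri hLif hCnt n hn
  rcases Nat.even_or_odd' n with ⟨k, hk | hk⟩
  · subst hk
    refine core k (k - 1) _ _ _ ?_ (hCnt.1 k (by omega)) (by omega) hTri hLif
    intro t ht
    have h := Finset.mem_filter.1 ht
    have h0 := Finset.mem_range.1 (Finset.mem_product.1 h.1).1
    exact ⟨by omega, h.2.1, h.2.2⟩
  · subst hk
    refine core k k _ _ _ ?_ (hCnt.2 k (by omega)) (by omega) hTri hLif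
    intro t ht
    have h := Finset.mem_filter.1 ht
    have h0 := Finset.mem_range.1 (Finset.mem_product.1 h.1).1
    exact ⟨by omega, h.2.1, h.2.2⟩

end Pool.Agent.Helper76.TH7
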